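import Pool.Agent.Run7.h979.JR.Iface

/-! Piece HAL of h979_pieces (MP_ef2f7d_an): Hall's theorem. -/

set_option autoImplicit false

noncomputable section

namespace Run7.h904.JR

open Finset Run7.h979.JR

open Classical in
theorem t_HAL : S_EXP → S_HAL := by
  intro EXP L M hM hC w hw S hS
  let t : L.V × Fin 4 → Finset (Fin (L.N M)) := fun x =>
    univ.filter fun j => j ∉ S ∧ L.R x.1 (w j)
  have hall : ∀ s : Finset (L.V × Fin 4), s.card ≤ (s.biUnion t).card := by
    intro s
    rcases s.eq_empty_or_nonempty with rfl | hs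
    · simp
    obtain ⟨Z, hZ⟩ : ∃ Z : Finset L.V, Z = s.image Prod.fst := ⟨_, rfl⟩
    have hZne : Z.Nonempty := by rw [hZ]; exact hs.image _
    have h1 : s.card ≤ 4 * Z.card := by
      have h0 : s ⊆ Z ×ˢ (univ : Finset (Fin 4)) := by
        intro x hx
        rw [mem_product]
        exact ⟨by rw [hZ]; exact mem_image_of_mem _ hx, mem_univ _⟩
      have h2 := card_le_card h0
      rw [card_product, card_univ, Fintype.card_fin] at h2
      omega
    have h2 : ∀ j, j ∈ s.biUnion t ↔ j ∉ S ∧ ∃ v ∈ Z, L.R v (w j) := by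
      intro j
      rw [mem_biUnion]
      constructor
      · rintro ⟨x, hx, hj⟩
        have hj' := (mem_filter.1 hj).2
        exact ⟨hj'.1, x.1, by rw [hZ]; exact mem_image_of_mem _ hx, hj'.2⟩
      · rintro ⟨h3, v, hv, h4⟩
        rw [hZ] at hv
        obtain ⟨x, hx, rfl⟩ := mem_image.1 hv
        exact ⟨x, hx, mem_filter.2 ⟨mem_univ _, h3, h4⟩⟩
    obtain ⟨P, hP⟩ : ∃ P : Finset (Fin (L.N M)),
        P = univ.filter (fun j => ∃ v ∈ Z, L.R v (w j)) := ⟨_, rfl⟩
    have hmP : ∀ j, j ∈ P ↔ ∃ v ∈ Z, L.R v (w j) := by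
      intro j; rw [hP, mem_filter]; simp
    have h3 : P.card ≤ (s.biUnion t).card + 3 := by
      have h4 : P ⊆ (s.biUnion t) ∪ S := by
        intro j hj
        rw [mem_union]
        by_cases hjS : j ∈ S
        · exact Or.inr hjS
        · exact Or.inl ((h2 j).2 ⟨hjS, (hmP j).1 hj⟩)
      have h5 := card_le_card h4
      have h6 := card_union_le (s.biUnion t) S
      omega
    rcases EXP L hC Z hZne with h | h
    · have h5 : P = univ := by
        refine eq_univ_of_forall fun j => (hmP j).2 ?_
        have h6 : w j ∈ univ.filter (fun w => ∃ v ∈ Z, L.R v w) := by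
          rw [h]; exact mem_univ _
        exact (mem_filter.1 h6).2
      have h6 : P.card = 4 * Fintype.card L.V + M := by
        rw [h5, card_univ, Fintype.card_fin]; rfl
      have h7 : Z.card ≤ Fintype.card L.V := card_le_univ _
      omega
    · obtain ⟨NZ, hNZ⟩ : ∃ NZ : Finset L.V, NZ = univ.filter (fun w => ∃ v ∈ Z, L.R v w) :=
        ⟨_, rfl⟩
      have hmN : ∀ b, b ∈ NZ ↔ ∃ v ∈ Z, L.R v b := by
        intro b; rw [hNZ, mem_filter]; simp
      have h' : Z.card + 1 ≤ NZ.card := by rw [hNZ]; exact h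
      have h8 : P.card = ∑ b ∈ NZ, (P.filter fun j => w j = b).card :=
        card_eq_sum_card_fiberwise fun j hj => (hmN _).2 ((hmP j).1 hj)
      have h9 : NZ.card • 4 ≤ ∑ b ∈ NZ, (P.filter fun j => w j = b).card := by
        refine card_nsmul_le_sum _ _ _ fun b hb => ?_
        refine (hw b).trans (card_le_card ?_)
        intro j hj
        have hj' := (mem_filter.1 hj).2
        refine mem_filter.2 ⟨(hmP j).2 ?_, hj'⟩
        rw [hj']
        exact (hmN b).1 hb
      rw [← h8, smul_eq_mul] at h9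
      omega
  obtain ⟨f, hinj, hf⟩ := (all_card_le_biUnion_card_iff_exists_injective t).1 hall
  let z : Fin (L.N M) → L.V := fun j =>
    if h : ∃ x, f x = j then (Classical.choose h).1 else L.s (w j)
  have hz1 : ∀ x, z (f x) = x.1 := by
    intro x
    have h : ∃ y, f y = f x := ⟨x, rfl⟩
    show (if h : ∃ y, f y = f x then (Classical.choose h).1 else L.s (w (f x))) = x.1
    rw [dif_pos h, hinj (Classical.choose_spec h)]
  refine ⟨z, fun j _ => ?_, fun v => ?_⟩
  · by_cases h : ∃ x, f x = j
    · obtain ⟨x, rfl⟩ := h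
      rw [hz1]
      exact L.R_symm (mem_filter.1 (hf x)).2.2
    · have h2 : z j = L.s (w j) := dif_neg h
      rw [h2]
      exact L.R_s _
  · have hi : Function.Injective fun a : Fin 4 => f (v, a) := by
      intro a b hab
      exact (Prod.ext_iff.1 (hinj hab)).2
    have h1 : (univ.image fun a : Fin 4 => f (v, a)) ⊆ univ.filter (fun j => j ∉ S ∧ z j = v) := by
      intro j hj
      obtain ⟨a, -, rfl⟩ := mem_image.1 hj
      exact mem_filter.2 ⟨mem_univ _, (mem_filter.1 (hf (v, a))).2.1, hz1 _⟩
    have h2 := card_le_card h1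
    rw [card_image_of_injective _ hi, card_univ, Fintype.card_fin] at h2
    exact h2

end Run7.h904.JR
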